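import Mathlib
import Pool.Agent.Helper150.Final

namespace Pool.Agent.Results.MP_88c2a9_an.FrolovSharp

open MeasureTheory
open scoped ENNReal ContDiff
open Pool.Agent.Helper150.Frolov

/-- The known upper bounds for the worst-case error of Frolov's cubature rule in the range of
small smoothness `2 < p`, `1/p < r ≤ 1/2` are sharp in order, for every matrix `A` whose lattice
`A ℤ^d` satisfies the first condition of the problem (the second one is not needed). -/
theorem result (d : ℕ) (hd : 2 ≤ d) (A : Matrix (Fin d) (Fin d) ℝ) (hA : A.det ≠ 0)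
    (hadm : ∀ m : Fin d → ℤ, m ≠ 0 → 1 ≤ |∏ j, A.mulVec (fun i => (m i : ℝ)) j|)
    (φ : ℕ → ℝ → ℝ) (hφ : IsDyadicResolution φ) (p r : ℝ) (hp : 2 < p) (hpr : 1 / p < r)
    (hr : r ≤ 1 / 2) :
    ∃ c : ℝ, 0 < c ∧ ∀ a : ℝ, 2 < a →
      ENNReal.ofReal (c * rate d r a) ≤ worstError φ r p A a := by
  have hr0 : 0 < r := lt_trans (by positivity) hpr
  exact Pool.Agent.Helper150.Final.main hd A hA hadm φ hφ hr0 hr hp

/-- Sanity check: smooth dyadic resolutions of unity exist. -/
theorem exists_resolution : ∃ φ : ℕ → ℝ → ℝ, IsDyadicResolution φ := by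
  obtain ⟨χ, hin, hout⟩ : ∃ χ : ContDiffBump (0 : ℝ), χ.rIn = 1 ∧ χ.rOut = 2 :=
    ⟨⟨1, 2, by norm_num, by norm_num⟩, rfl, rfl⟩
  have hbound : ∀ m : ℕ, ∃ C : ℝ, ∀ x : ℝ, |iteratedDeriv m (fun x => χ x) x| ≤ C := by
    intro m
    have h1 : Continuous (iteratedFDeriv ℝ m (fun x => χ x)) :=
      (χ.contDiff (n := m)).continuous_iteratedFDeriv le_rfl
    obtain ⟨C, hC⟩ := (HasCompactSupport.iteratedFDeriv (𝕜 := ℝ) χ.hasCompactSupport m).exists_bound_of_continuous h1
    exact ⟨C, fun x => by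
      have := hC x
      rwa [norm_iteratedFDeriv_eq_norm_iteratedDeriv] at this⟩
  obtain ⟨ψ, hψ⟩ : ∃ ψ : ℕ → ℝ → ℝ, ψ = fun k x => χ (((2 : ℝ) ^ k)⁻¹ * x) := ⟨_, rfl⟩
  have hsm : ∀ k, ContDiff ℝ ∞ (ψ k) := by
    intro k
    rw [hψ]
    exact χ.contDiff.comp (contDiff_const.mul contDiff_id)
  have hone : ∀ k x, |x| ≤ 2 ^ k → ψ k x = 1 := by
    intro k x hx
    rw [hψ]
    apply χ.one_of_mem_closedBall
    rw [hin, Metric.mem_closedBall, dist_zero_right, Real.norm_eq_abs, abs_mul,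
      abs_of_pos (by positivity), inv_mul_le_iff₀ (by positivity), mul_one]
    exact hx
  have hzero : ∀ k x, 2 * 2 ^ k ≤ |x| → ψ k x = 0 := by
    intro k x hx
    rw [hψ]
    apply χ.zero_of_le_dist
    rw [hout, dist_zero_right, Real.norm_eq_abs, abs_mul, abs_of_pos (by positivity),
      le_inv_mul_iff₀ (by positivity), mul_comm]
    exact hx
  have hder : ∀ k m x, iteratedDeriv m (ψ k) x =
      (((2 : ℝ) ^ k)⁻¹) ^ m * iteratedDeriv m (fun x => χ x) (((2 : ℝ) ^ k)⁻¹ * x) := by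
    intro k m x
    rw [hψ]
    have := iteratedDeriv_comp_const_mul (n := m) (χ.contDiff (n := m)) (((2 : ℝ) ^ k)⁻¹)
    exact congrFun this x
  refine ⟨fun k => match k with
    | 0 => ψ 0
    | k + 1 => fun x => ψ (k + 1) x - ψ k x, ?_, ⟨2, by norm_num, ?_, ?_⟩, ?_, ?_⟩
  · intro k
    cases k with
    | zero => exact hsm 0
    | succ k => exact (hsm (k + 1)).sub (hsm k)
  · intro ξ h
    by_contra hc
    rw [not_le] at hc
    exact h (hzero 0 ξ (by rw [pow_zero, mul_one]; exact hc.le))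
  · intro k hk ξ h
    obtain ⟨k, rfl⟩ : ∃ j, k = j + 1 := ⟨k - 1, by omega⟩
    simp only at h
    have h2 : (2 : ℝ) ^ (k + 1) = 2 * 2 ^ k := by ring
    have h3 : (0 : ℝ) < 2 ^ k := by positivity
    constructor
    · by_contra hc
      rw [not_le] at hc
      apply h
      have h4 : |ξ| ≤ 2 ^ k := by rw [h2] at hc; linarith
      rw [hone k ξ h4, hone (k + 1) ξ (by rw [h2]; linarith), sub_self]
    · by_contra hc
      rw [not_le] at hc
      apply h
      rw [hzero (k + 1) ξ hc.le, hzero k ξ (by rw [h2] at hc; linarith), sub_self]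
  · intro m
    obtain ⟨C, hC⟩ := hbound m
    have hC0 : 0 ≤ C := (abs_nonneg _).trans (hC 0)
    have key : ∀ k x, |iteratedDeriv m (ψ k) x| ≤ C / (2 ^ k) ^ m := by
      intro k x
      rw [hder, abs_mul, abs_of_nonneg (by positivity), inv_pow, ← div_eq_inv_mul]
      gcongr
      exact hC _
    refine ⟨C * (1 + 2 ^ m), fun k ξ => ?_⟩
    cases k with
    | zero =>
      refine (key 0 ξ).trans ?_
      gcongr
      have : (0 : ℝ) < 2 ^ m := by positivity
      nlinarith
    | succ k =>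
      simp only
      rw [iteratedDeriv_fun_sub ((hsm (k + 1)).contDiffAt.of_le (by exact_mod_cast le_top))
        ((hsm k).contDiffAt.of_le (by exact_mod_cast le_top))]
      refine (abs_sub _ _).trans ?_
      have h1 := key (k + 1) ξ
      have h2 := key k ξ
      have h3 : C / (2 ^ k) ^ m = C * 2 ^ m / ((2 : ℝ) ^ (k + 1)) ^ m := by
        rw [pow_succ (2 : ℝ) k, mul_pow]
        field_simp
      rw [h3] at h2
      calc _ ≤ C / ((2 : ℝ) ^ (k + 1)) ^ m + C * 2 ^ m / ((2 : ℝ) ^ (k + 1)) ^ m :=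
            add_le_add h1 h2
        _ = _ := by ring
  · intro ξ
    obtain ⟨n, hn⟩ := pow_unbounded_of_one_lt |ξ| (by norm_num : (1 : ℝ) < 2)
    rw [tsum_eq_sum (s := Finset.range (n + 1))]
    · have : ∀ n : ℕ, ∑ k ∈ Finset.range (n + 1), (match k with
          | 0 => ψ 0
          | k + 1 => fun x => ψ (k + 1) x - ψ k x : ℝ → ℝ) ξ = ψ n ξ := by
        intro n
        induction n with
        | zero => simp
        | succ n ih =>
          rw [Finset.sum_range_succ, ih]
          simp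
      rw [this, hone n ξ hn.le]
    · intro k hk
      rw [Finset.mem_range, not_lt] at hk
      obtain ⟨k, rfl⟩ : ∃ j, k = j + 1 := ⟨k - 1, by omega⟩
      simp only
      have h1 : (2 : ℝ) ^ n ≤ 2 ^ k := pow_le_pow_right₀ (by norm_num) (by omega)
      have h2 : (2 : ℝ) ^ n ≤ 2 ^ (k + 1) := pow_le_pow_right₀ (by norm_num) (by omega)
      rw [hone k ξ (by linarith), hone (k + 1) ξ (by linarith), sub_self]

end Pool.Agent.Results.MP_88c2a9_an.FrolovSharp
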